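import Pool.Agent.TH875.Vg.GfD

set_option autoImplicit false

/-!
# Canonical degrees of curves on surfaces ramified over very general divisors

`k` is an algebraically closed field of characteristic zero. Curves with function field `L` (a
function field of one variable over `k`) on a projective scheme are given by `L`-rational points:
a point of `ℙ^N` over `L` is a morphism from the smooth projective curve with function field `L` to
`ℙ^N`, and every curve `C ⊆ ℙ^N` is given by the point of `ℙ^N` over `L = k(C)` that corresponds to
the normalisation of `C`. `X ⊆ ℙ^n` is an arbitrary projective variety, `S` is another one, with a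
morphism to `X` that is ramified along very general hypersurface sections of `X`.
-/

namespace Pool.Agent.Results.MP_308c18_ag.RamifiedCovers

open FF MvPolynomial

section

variable (k : Type) {L : Type} [Field k] [Field L] [Algebra k L]

/-- The least order at the place `P` of the coordinates of a point of a projective space. -/
noncomputable def minOrd {ι : Type} (P : Place k L) (x : ι → L) : ℤ :=
  ⨅ j : {j // x j ≠ 0}, P.ord (x j)

/-- The height of the point with homogeneous coordinates `x`: minus the sum over the places of `L`
of the least order of the coordinates, that is, the degree of the pull-back of `O(1)` to the curve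
with function field `L`. -/
noncomputable def height {ι : Type} (x : ι → L) : ℤ := - ∑ᶠ P : Place k L, minOrd k P x

/-- The height of the linear subspace of `L ^ (n + 1)` spanned by the linearly independent vectors
`u 0, …, u r`: the height of the point whose homogeneous coordinates are the Plücker coordinates of
the subspace, the minors `det (u i (σ j))`. It does not depend on the basis, and it is `≥ 0`. -/
noncomputable def spaceHeight {n r : ℕ} (u : Fin (r + 1) → Fin (n + 1) → L) : ℤ :=
  height k fun σ : Fin (r + 1) → Fin (n + 1) => (Matrix.of fun i j => u i (σ j)).det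

variable (L) in
open Classical in
/-- `2 g - 2`, where `g` is the genus of the curve with function field `L`: minus the degree of the
divisor of a nonzero rational vector field `D` (a derivation of `L` over `k`), whose order at the
place `P` is the order of `D t`, where `t` is an element of order `1` at `P`. It does not depend on
the choice of `D` and of the elements `t`. -/
noncomputable def canonicalDegree : ℤ :=
  if h : ∃ D : Derivation k L L, D ≠ 0 then - ∑ᶠ P : Place k L, P.ord (h.choose P.surj.choose)
  else 0

/-- The point `x` of the projective space does not come from a point over `k`: it gives a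
nonconstant morphism from the curve with function field `L` to the projective space. -/
def Nonconstant {n : ℕ} (x : Fin (n + 1) → L) : Prop :=
  ∃ a b, x b ≠ 0 ∧ Transcendental k (x a / x b)

variable {k}

/-- The point `x` has contact order `0` or at least `e i` with each of the hypersurfaces `g i = 0`
(of degree `d i`) that do not contain it, at every place. -/
def HighContact {n q : ℕ} (d e : Fin q → ℕ) (g : Fin q → MvPolynomial (Fin (n + 1)) k)
    (x : Fin (n + 1) → L) : Prop :=
  ∀ P : Place k L, ∀ i, aeval x (g i) ≠ 0 → d i * minOrd k P x < P.ord (aeval x (g i)) →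
    d i * minOrd k P x + e i ≤ P.ord (aeval x (g i))

/-- `u` is a basis of the tangent space at the point `z` of the cone over the projective scheme
defined by `J`. If this scheme is smooth of dimension `t` at all points of the curve `C` given by
the nonconstant point `z`, then `K · C`, where `K` is the canonical divisor of the scheme and `C` is
counted with the degree of the curve with function field `L` over its image, is
`spaceHeight u - (t + 1) * height z`. -/
def IsTangentBasis {N t : ℕ} (J : Ideal (MvPolynomial (Fin (N + 1)) k)) (z : Fin (N + 1) → L)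
    (u : Fin (t + 1) → Fin (N + 1) → L) : Prop :=
  LinearIndependent L u ∧ ∀ v, v ∈ Submodule.span L (Set.range u) ↔
    ∀ f ∈ J, ∑ j, aeval z (pderiv j f) * v j = 0

end

/-- A projective scheme `S ⊆ ℙ^N`, given by a homogeneous ideal `J`, and a morphism from `S` to
`ℙ^n`: the morphism is given by finitely many tuples `p σ` of forms of degrees `c σ ≥ 1` which have
no common zero on `S` and which agree, as maps to `ℙ^n`, where they are defined. -/
structure ProjectiveMorphism (k : Type) [Field k] (N n : ℕ) where
  /-- the ideal of `S` -/
  J : Ideal (MvPolynomial (Fin (N + 1)) k)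
  homogeneous : ∀ f ∈ J, ∀ M, homogeneousComponent M f ∈ J
  /-- the number of charts -/
  s : ℕ
  /-- the degrees of the forms -/
  c : Fin s → ℕ
  pos : ∀ σ, 0 < c σ
  /-- the forms -/
  p : Fin s → Fin (n + 1) → MvPolynomial (Fin (N + 1)) k
  form : ∀ σ j, (p σ j).IsHomogeneous (c σ)
  noCommonZero : ∀ a : Fin (N + 1) → k, (∀ f ∈ J, eval a f = 0) → (∀ σ j, eval a (p σ j) = 0) →
    a = 0
  agree : ∀ σ τ i j, p σ i * p τ j - p σ j * p τ i ∈ J

namespace ProjectiveMorphism

variable {k : Type} [Field k] {N n : ℕ} (π : ProjectiveMorphism k N n)

/-- The image of the morphism is contained in the subscheme of `ℙ^n` defined by the ideal `I`. -/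
def MapsTo (I : Ideal (MvPolynomial (Fin (n + 1)) k)) : Prop :=
  ∀ σ, ∀ f ∈ I, bind₁ (π.p σ) f ∈ π.J

/-- The morphism is ramified to order at least `e` over the hypersurface `g = 0`: on the open subset
of `S` where one of the coordinates of `ℙ^N` and one of the forms of a chart do not vanish, the
pull-back of `g` belongs to the `e`-th power of the ideal of the set of its zeros. If `S` is smooth,
then this means that every irreducible component of the pull-back of the hypersurface has
multiplicity at least `e`. -/
def Ramified (g : MvPolynomial (Fin (n + 1)) k) (e : ℕ) : Prop :=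
  ∀ σ, ∃ M : ℕ, ∀ i j, (X i * π.p σ j) ^ M * bind₁ (π.p σ) g ∈
    (π.J ⊔ Ideal.span {bind₁ (π.p σ) g}).radical ^ e ⊔ π.J

/-- The irreducible closed subset of `S` defined by the prime ideal `J' ⊇ J` and its image in `ℙ^n`,
whose ideal is the inverse image of `J'` under a chart, have the same dimension. -/
def SameDimension (J' : Ideal (MvPolynomial (Fin (N + 1)) k)) : Prop :=
  ∃ σ, (∃ j, π.p σ j ∉ J') ∧ Algebra.trdeg k (MvPolynomial (Fin (N + 1)) k ⧸ J') ≤
    Algebra.trdeg k (MvPolynomial (Fin (n + 1)) k ⧸ J'.comap (bind₁ (π.p σ)))

/-- `S` is integral, and the morphism is generically finite onto its image. -/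
def GenericallyFinite : Prop := π.J.IsPrime ∧ π.SameDimension π.J

/-- The morphism is finite: every irreducible closed subset of `S` has the same dimension as its
image. -/
def IsFinite : Prop :=
  ∀ J' : Ideal (MvPolynomial (Fin (N + 1)) k), π.J ≤ J' → J'.IsPrime →
    (∀ f ∈ J', ∀ M, homogeneousComponent M f ∈ J') → (∃ j, X j ∉ J') → π.SameDimension J'

end ProjectiveMorphism

/-- Let `X ⊆ ℙ^n` be a projective scheme of dimension at most `m` over `k`, given by a homogeneous
ideal `I`, and let `d i ≥ 1` and `e i ≥ 1`, `i < q`, be integers. There is a countable subfield `k₁`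
of `k` with the following property. Let `g i` be forms of degrees `d i` over `k` all of whose
coefficients together are algebraically independent over `k₁`.

(1) For every nonconstant point `x` of `X` over a function field `L` that has contact order `0` or
at least `e i` with `g i = 0` (or is contained in it), for all `i`, at every place, there are a
number `r ≤ m` and a space `U` of dimension `r + 1` that contains `x` and its derivatives and is
contained in the tangent space at `x` of the cone over `X`, such that
`(∑ i, d i (1 - 1 / e i) - 2 r) h(x) + h(U) ≤ 2 g(L) - 2`.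

Suppose that `∑ i, d i (1 - 1 / e i) > 2 m`, and let `π : S → ℙ^n` be a morphism of a projective
scheme `S` to `X` that is ramified to order at least `e i` over `g i = 0`, for all `i`.

(2) If `S` is integral and `π` is generically finite onto its image, then there are a number `A` and
a form `H` that does not vanish identically on `S`, such that, for every nonconstant point `z` of
`S` over a function field `L` with `H(z) ≠ 0`, both the degree of `z` and (if `S` has dimension `t`
and `u` is a basis of the tangent space at `z` of the cone over `S`) the canonical degree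
`spaceHeight u - (t + 1) * height z` of `z` are at most `A (2 g(L) - 2)`.

(3) If `π` is finite, then the same holds for all nonconstant points `z` of `S`. -/
theorem result (k : Type) [Field k] [IsAlgClosed k] [CharZero k] (n q m : ℕ)
    (I : Ideal (MvPolynomial (Fin (n + 1)) k)) (hI : ∀ f ∈ I, ∀ N, homogeneousComponent N f ∈ I)
    (hX : Algebra.trdeg k (MvPolynomial (Fin (n + 1)) k ⧸ I) ≤ m + 1)
    (d e : Fin q → ℕ) (hd : ∀ i, 1 ≤ d i) (he : ∀ i, 1 ≤ e i) :
    ∃ k₁ : Subfield k, Countable k₁ ∧
      ∀ g : Fin q → MvPolynomial (Fin (n + 1)) k, (∀ i, (g i).IsHomogeneous (d i)) →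
      AlgebraicIndependent k₁ (fun p : (i : Fin q) × {α : Fin (n + 1) →₀ ℕ // α.degree = d i} =>
        (g p.1).coeff p.2.1) →
      (∀ (L : Type) [Field L] [Algebra k L] [IsFF k L] (x : Fin (n + 1) → L),
        Nonconstant k x → (∀ f ∈ I, aeval x f = 0) → HighContact d e g x →
        ∃ r : ℕ, r ≤ m ∧ ∃ u : Fin (r + 1) → Fin (n + 1) → L, LinearIndependent L u ∧
          x ∈ Submodule.span L (Set.range u) ∧
          (∀ D : Derivation k L L, (fun j => D (x j)) ∈ Submodule.span L (Set.range u)) ∧
          (∀ i, ∀ f ∈ I, ∑ j, aeval x (pderiv j f) * u i j = 0) ∧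
          (∑ i, (d i : ℚ) * (1 - 1 / e i) - 2 * r) * height k x + spaceHeight k u ≤
            canonicalDegree k L) ∧
      ((2 * m : ℚ) < ∑ i, (d i : ℚ) * (1 - 1 / e i) →
        ∀ (N : ℕ) (π : ProjectiveMorphism k N n), π.MapsTo I → (∀ i, π.Ramified (g i) (e i)) →
        (π.GenericallyFinite → ∀ t : ℕ,
          ∃ (A w : ℕ) (H : MvPolynomial (Fin (N + 1)) k), H ∉ π.J ∧ H.IsHomogeneous w ∧
          ∀ (L : Type) [Field L] [Algebra k L] [IsFF k L] (z : Fin (N + 1) → L),
            Nonconstant k z → (∀ f ∈ π.J, aeval z f = 0) → aeval z H ≠ 0 →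
            height k z ≤ A * canonicalDegree k L ∧
            ∀ u : Fin (t + 1) → Fin (N + 1) → L, IsTangentBasis π.J z u →
              spaceHeight k u - (t + 1) * height k z ≤ A * canonicalDegree k L) ∧
        (π.IsFinite → ∀ t : ℕ, ∃ A : ℕ,
          ∀ (L : Type) [Field L] [Algebra k L] [IsFF k L] (z : Fin (N + 1) → L),
            Nonconstant k z → (∀ f ∈ π.J, aeval z f = 0) →
            height k z ≤ A * canonicalDegree k L ∧
            ∀ u : Fin (t + 1) → Fin (N + 1) → L, IsTangentBasis π.J z u →
              spaceHeight k u - (t + 1) * height k z ≤ A * canonicalDegree k L)) := by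
  obtain ⟨k₁, hk₁, h1⟩ := Pool.Agent.TH875.Vg.final_T (k := k) hd he hI hX
  refine ⟨k₁, hk₁, fun g hg hai => ?_⟩
  obtain ⟨h2, h3⟩ := h1 g hg (hai.comp
    (fun p : (i : Fin q) × Pool.Agent.TH875.Vg.Expo n (d i) =>
      (⟨p.1, ⟨p.2.1, (Pool.Agent.TH875.Vg.mem_expo p.2.1).1 p.2.2⟩⟩ :
        (i : Fin q) × {α : Fin (n + 1) →₀ ℕ // α.degree = d i})) (by
      rintro ⟨i, α⟩ ⟨j, β⟩ hab
      simp only [Sigma.mk.injEq] at hab
      obtain ⟨rfl, hab⟩ := hab
      rw [heq_eq_eq, Subtype.mk.injEq] at hab
      rw [Subtype.ext hab]))
  have hcan : ∀ (L : Type) [Field L] [Algebra k L] [IsFF k L],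
      canonicalDegree k L = Pool.Agent.W603.LV.canDeg k L := by
    intro L _ _ _
    have h : ∃ D : Derivation k L L, D ≠ 0 := Pool.Agent.W603.LV.exists_der
    unfold canonicalDegree
    rw [dif_pos h, Pool.Agent.W603.LV.canDeg_eq h.choose_spec]
    rfl
  refine ⟨fun L _ _ _ x hx hxI hor => ?_, fun hδ N π hπI hπr => ?_⟩
  · rw [hcan]
    exact h2 L x hx hxI hor
  · obtain ⟨-, h4⟩ := h3 N π.s π.c π.J π.p π.pos π.homogeneous π.form π.noCommonZero π.agree hπI
      (fun i σ => hπr i σ)
    obtain ⟨h5, h6⟩ := h4 hδ
    refine ⟨fun hgf t => ?_, fun hfin t => ?_⟩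
    · obtain ⟨hprime, σ, hσ, htr⟩ := hgf
      obtain ⟨A, w, H, hHJ, hHw, hH⟩ := h5 t σ hprime hσ htr
      refine ⟨A, w, H, hHJ, hHw, fun L _ _ _ z hz hzJ hzH => ?_⟩
      rw [hcan]
      obtain ⟨h7, h8⟩ := hH L z hz hzJ hzH
      exact ⟨h7, fun u hu => h8 u hu.1 hu.2⟩
    · obtain ⟨A, hA⟩ := h6 t hfin
      refine ⟨A, fun L _ _ _ z hz hzJ => ?_⟩
      rw [hcan]
      obtain ⟨h7, h8⟩ := hA L z hz hzJ
      exact ⟨h7, fun u hu => h8 u hu.1 hu.2⟩

end Pool.Agent.Results.MP_308c18_ag.RamifiedCovers
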